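import Pool.Agent.MP_c74c64_nt.Mg.Main

/-!
Numerators and denominators of the multiples of the point `(0,0)` over an arbitrary ring.
-/

namespace Pool.Agent.MP_c74c64_nt.H6

open WeierstrassCurve WeierstrassCurve.Affine

section ring
variable {R S : Type*} [CommRing R] [CommRing S]

/-- One step of the recursion. -/
structure St (b4 b6 b8 a' D' a D X Y : R) : Prop where
  e1 : Y * D' = a ^ 2
  e2 : X * D' + a' * Y = D * (b4 * a + b6 * D)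
  e3 : X * a' = -(D * (b6 * a + b8 * D))

/-- The recursion up to the index `N`. -/
structure Ch (N : ℕ) (b4 b6 b8 : R) (a D : ℕ → R) : Prop where
  a0 : a 0 = 1
  D0 : D 0 = 0
  a1 : a 1 = 0
  D1 : D 1 = 1
  st : ∀ n, n + 2 ≤ N → St b4 b6 b8 (a n) (D n) (a (n + 1)) (D (n + 1)) (a (n + 2)) (D (n + 2))

variable {b4 b6 b8 a' D' a D X Y X' Y' : R}

lemma St.map (h : St b4 b6 b8 a' D' a D X Y) (φ : R →+* S) :
    St (φ b4) (φ b6) (φ b8) (φ a') (φ D') (φ a) (φ D) (φ X) (φ Y) :=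
  ⟨by simpa using congrArg φ h.e1, by simpa using congrArg φ h.e2, by simpa using congrArg φ h.e3⟩

lemma St.cop (hb : IsCoprime b6 b8) (hc : IsCoprime a D) (h : St b4 b6 b8 a' D' a D X Y) :
    IsCoprime X Y := by
  by_contra k
  rw [← Ideal.isCoprime_span_singleton_iff, Ideal.isCoprime_iff_sup_eq] at k
  obtain ⟨M, hM, hle⟩ := Ideal.exists_le_maximal _ k
  have hX : X ∈ M := hle (Ideal.mem_sup_left (Ideal.mem_span_singleton_self X))
  have hY : Y ∈ M := hle (Ideal.mem_sup_right (Ideal.mem_span_singleton_self Y))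
  have hP := hM.isPrime
  have one : ∀ {u v : R}, IsCoprime u v → u ∈ M → v ∈ M → False := fun ⟨c, d, e⟩ hu hv =>
    hM.ne_top ((Ideal.eq_top_iff_one _).2 (e ▸ M.add_mem (M.mul_mem_left _ hu) (M.mul_mem_left _ hv)))
  have ha : a ∈ M := hP.mem_of_pow_mem 2 (h.e1 ▸ M.mul_mem_right _ hY)
  have hD : D ∉ M := one hc ha
  have h6 : b6 ∈ M := by
    have : D * (b4 * a + b6 * D) ∈ M :=
      h.e2 ▸ M.add_mem (M.mul_mem_right _ hX) (M.mul_mem_left _ hY)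
    have := (hP.mem_or_mem this).resolve_left hD
    have := (M.add_mem_iff_right (M.mul_mem_left b4 ha)).1 this
    exact (hP.mem_or_mem this).resolve_right hD
  have h8 : b8 ∈ M := by
    have : D * (b6 * a + b8 * D) ∈ M := M.neg_mem_iff.1 (h.e3 ▸ M.mul_mem_right _ hX)
    have := (hP.mem_or_mem this).resolve_left hD
    have := (M.add_mem_iff_right (M.mul_mem_left b6 ha)).1 this
    exact (hP.mem_or_mem this).resolve_right hD
  exact one hb h6 h8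

lemma St.uniq (hc : IsCoprime a' D') (h : St b4 b6 b8 a' D' a D X Y)
    (h' : St b4 b6 b8 a' D' a D X' Y') : X = X' ∧ Y = Y' := by
  obtain ⟨u, v, e⟩ := hc
  have k1 : (Y - Y') * D' = 0 := by linear_combination h.e1 - h'.e1
  have k2 : (X - X') * D' + a' * (Y - Y') = 0 := by linear_combination h.e2 - h'.e2
  have k3 : (X - X') * a' = 0 := by linear_combination h.e3 - h'.e3
  constructor
  · linear_combination (-(X - X') * (u * a' + v * D' + 1)) * e + (u ^ 2 * a' + 2 * u * v * D') * k3 +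
      v ^ 2 * D' * k2 - v ^ 2 * a' * k1
  · linear_combination (-(Y - Y') * (u * a' + v * D' + 1)) * e + (v ^ 2 * D' + 2 * u * v * a') * k1 +
      u ^ 2 * a' * k2 - u ^ 2 * D' * k3

/-- The symmetric biquadratic relation between two consecutive terms. -/
def BB (b4 b6 b8 a' D' a D : R) : R :=
  a ^ 2 * a' ^ 2 - D * (b4 * a + b6 * D) * a' * D' - D * (b6 * a + b8 * D) * D' ^ 2

lemma St.bb (h : St b4 b6 b8 a' D' a D X Y) : BB b4 b6 b8 a D X Y = 0 := by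
  unfold BB
  linear_combination (-X ^ 2) * h.e1 + X * Y * h.e2 - Y ^ 2 * h.e3

lemma St.ex (hc : IsCoprime a' D') (h : BB b4 b6 b8 a' D' a D = 0) :
    ∃ X Y, St b4 b6 b8 a' D' a D X Y := by
  obtain ⟨u, v, e⟩ := hc
  unfold BB at h
  have k : ∀ U1 U2 U3 : R, U1 * a' ^ 2 - U2 * a' * D' + U3 * D' ^ 2 = 0 →
      ∃ X Y, Y * D' = U1 ∧ X * D' + a' * Y = U2 ∧ X * a' = U3 := by
    intro U1 U2 U3 h
    refine ⟨v ^ 2 * (D' * U2 - a' * U1) + u * v * D' * U3 + u * U3,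
      u ^ 2 * (a' * U2 - D' * U3) + u * v * a' * U1 + v * U1, ?_, ?_, ?_⟩
    · linear_combination (-u ^ 2) * h + (U1 * u * a' + U1) * e
    · linear_combination (2 * u * v) * h + (U2 * (u * a' + v * D' + 1) - v * a' * U1 - u * D' * U3) * e
    · linear_combination (-v ^ 2) * h + (U3 * v * D' + U3) * e
  obtain ⟨X, Y, h1, h2, h3⟩ := k (a ^ 2) (D * (b4 * a + b6 * D)) (-(D * (b6 * a + b8 * D)))
    (by linear_combination h)
  exact ⟨X, Y, h1, h2, h3⟩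

variable {N : ℕ} {A E A' E' : ℕ → R}

lemma Ch.map (h : Ch N b4 b6 b8 A E) (φ : R →+* S) :
    Ch N (φ b4) (φ b6) (φ b8) (fun n => φ (A n)) (fun n => φ (E n)) :=
  ⟨by simp [h.a0], by simp [h.D0], by simp [h.a1], by simp [h.D1], fun n hn => (h.st n hn).map φ⟩

lemma Ch.cop (hb : IsCoprime b6 b8) (h : Ch N b4 b6 b8 A E) :
    ∀ n, n ≤ N → IsCoprime (A n) (E n)
  | 0, _ => by rw [h.a0]; exact isCoprime_one_left
  | 1, _ => by rw [h.D1]; exact isCoprime_one_right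
  | n + 2, hn => (h.st n hn).cop hb (h.cop hb (n + 1) (by omega))

lemma Ch.uniq (hb : IsCoprime b6 b8) (h : Ch N b4 b6 b8 A E) (h' : Ch N b4 b6 b8 A' E') :
    ∀ n, n ≤ N → A n = A' n ∧ E n = E' n
  | 0, _ => ⟨h.a0.trans h'.a0.symm, h.D0.trans h'.D0.symm⟩
  | 1, _ => ⟨h.a1.trans h'.a1.symm, h.D1.trans h'.D1.symm⟩
  | n + 2, hn => by
    obtain ⟨e1, e2⟩ := h.uniq hb h' n (by omega)
    obtain ⟨e3, e4⟩ := h.uniq hb h' (n + 1) (by omega)
    have k := h'.st n hn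
    rw [← e1, ← e2, ← e3, ← e4] at k
    exact (h.st n hn).uniq (h.cop hb n (by omega)) k

lemma Ch.ex (b4 : R) (hb : IsCoprime b6 b8) : ∃ A E : ℕ → R, ∀ N, Ch N b4 b6 b8 A E := by
  let T := {q : (R × R) × R × R // IsCoprime q.1.1 q.1.2 ∧ IsCoprime q.2.1 q.2.2 ∧
    BB b4 b6 b8 q.1.1 q.1.2 q.2.1 q.2.2 = 0}
  have k : ∀ q : T, ∃ r : T, r.1.1 = q.1.2 ∧
      St b4 b6 b8 q.1.1.1 q.1.1.2 q.1.2.1 q.1.2.2 r.1.2.1 r.1.2.2 := fun q => by
    obtain ⟨X, Y, h⟩ := St.ex q.2.1 q.2.2.2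
    exact ⟨⟨(q.1.2, X, Y), q.2.2.1, h.cop hb q.2.2.1, h.bb⟩, rfl, h⟩
  choose f h1 h2 using k
  let q0 : T := ⟨((1, 0), 0, 1), isCoprime_one_left, isCoprime_one_right, by simp [BB]⟩
  have e : ∀ n, (f^[n + 1] q0).1.1 = (f^[n] q0).1.2 := fun n => by
    rw [Function.iterate_succ_apply', h1]
  refine ⟨fun n => (f^[n] q0).1.1.1, fun n => (f^[n] q0).1.1.2, fun N =>
    ⟨rfl, rfl, by simp only [e]; rfl, by simp only [e]; rfl, fun n _ => ?_⟩⟩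
  simp only [e]
  rw [Function.iterate_succ_apply']
  exact h2 _

lemma St.scale {u w c' c c'' : R} (hu : u * w = 1) (hc : c'' * c' = u ^ 4 * c ^ 2)
    (h : St b4 b6 b8 a' D' a D X Y) :
    St (u ^ 4 * b4) (u ^ 6 * b6) (u ^ 8 * b8) (c' * a') (w ^ 2 * c' * D') (c * a) (w ^ 2 * c * D)
      (c'' * X) (w ^ 2 * c'' * Y) := by
  have h2 : u ^ 2 * w ^ 2 = 1 := by rw [← mul_pow, hu, one_pow]
  refine ⟨?_, ?_, ?_⟩
  · linear_combination (w ^ 4 * c'' * c') * h.e1 + a ^ 2 * w ^ 4 * hc +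
      a ^ 2 * c ^ 2 * (u ^ 2 * w ^ 2 + 1) * h2
  · linear_combination (w ^ 2 * c'' * c') * h.e2 + D * (b4 * a + b6 * D) * w ^ 2 * hc -
      c ^ 2 * u ^ 4 * w ^ 2 * b6 * D ^ 2 * h2
  · linear_combination (c'' * c') * h.e3 - D * (b6 * a + b8 * D) * hc +
      c ^ 2 * u ^ 4 * (b6 * a * D + b8 * D ^ 2 * (u ^ 2 * w ^ 2 + 1)) * h2

lemma Ch.scale {u w : R} (hu : u * w = 1) (h : Ch N b4 b6 b8 A E) :
    Ch N (u ^ 4 * b4) (u ^ 6 * b6) (u ^ 8 * b8) (fun n => u ^ (2 * n ^ 2) * A n)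
      (fun n => w ^ 2 * u ^ (2 * n ^ 2) * E n) := by
  refine ⟨by simp [h.a0], by simp [h.D0], by simp [h.a1], ?_, fun n hn => ?_⟩
  · simp only [h.D1]
    linear_combination (u * w + 1) * hu
  · exact (h.st n hn).scale hu (by ring)

/-- Three congruent elements and their alternating sum. -/
def Tr (π x y z w : R) : Prop := (∃ i, x = y + π * i) ∧ (∃ j, z = y + π * j) ∧ w = x - y + z

variable {π x y z w x' y' z' w' : R}

lemma Tr.const (π c : R) : Tr π c c c c := ⟨⟨0, by ring⟩, ⟨0, by ring⟩, by ring⟩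

lemma Tr.add (h : Tr π x y z w) (h' : Tr π x' y' z' w') :
    Tr π (x + x') (y + y') (z + z') (w + w') := by
  obtain ⟨⟨i, rfl⟩, ⟨j, rfl⟩, rfl⟩ := h
  obtain ⟨⟨i', rfl⟩, ⟨j', rfl⟩, rfl⟩ := h'
  exact ⟨⟨i + i', by ring⟩, ⟨j + j', by ring⟩, by ring⟩

lemma Tr.neg (h : Tr π x y z w) : Tr π (-x) (-y) (-z) (-w) := by
  obtain ⟨⟨i, rfl⟩, ⟨j, rfl⟩, rfl⟩ := h
  exact ⟨⟨-i, by ring⟩, ⟨-j, by ring⟩, by ring⟩

lemma Tr.mul (hπ : π ^ 2 = 0) (h : Tr π x y z w) (h' : Tr π x' y' z' w') :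
    Tr π (x * x') (y * y') (z * z') (w * w') := by
  obtain ⟨⟨i, rfl⟩, ⟨j, rfl⟩, rfl⟩ := h
  obtain ⟨⟨i', rfl⟩, ⟨j', rfl⟩, rfl⟩ := h'
  exact ⟨⟨i * y' + y * i' + π * i * i', by ring⟩, ⟨j * y' + y * j' + π * j * j', by ring⟩,
    by linear_combination (i * j' + j * i') * hπ⟩

lemma Tr.pow (hπ : π ^ 2 = 0) (h : Tr π x y z w) (n : ℕ) :
    Tr π (x ^ n) (y ^ n) (z ^ n) (w ^ n) := by
  induction n with
  | zero => simpa using Tr.const π 1
  | succ n ih => simpa only [pow_succ] using ih.mul hπ h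

lemma Tr.eq (h : Tr π x y z w) (h' : Tr π x' y' z' w') (e1 : x = x') (e2 : y = y') (e3 : z = z') :
    w = w' := by rw [h.2.2, h'.2.2, e1, e2, e3]

lemma Ch.tern (hπ : π ^ 2 = 0) {p4 p6 p8 q4 q6 q8 r4 r6 r8 : R} {A1 E1 A2 E2 A3 E3 : ℕ → R}
    (t4 : Tr π p4 q4 r4 b4) (t6 : Tr π p6 q6 r6 b6) (t8 : Tr π p8 q8 r8 b8)
    (h1 : Ch N p4 p6 p8 A1 E1) (h2 : Ch N q4 q6 q8 A2 E2) (h3 : Ch N r4 r6 r8 A3 E3)
    (ta : ∀ n, n ≤ N → Tr π (A1 n) (A2 n) (A3 n) (A1 n - A2 n + A3 n))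
    (te : ∀ n, n ≤ N → Tr π (E1 n) (E2 n) (E3 n) (E1 n - E2 n + E3 n)) :
    Ch N b4 b6 b8 (fun n => A1 n - A2 n + A3 n) (fun n => E1 n - E2 n + E3 n) := by
  refine ⟨by simp [h1.a0, h2.a0, h3.a0], by simp [h1.D0, h2.D0, h3.D0],
    by simp [h1.a1, h2.a1, h3.a1], by simp [h1.D1, h2.D1, h3.D1], fun n hn => ?_⟩
  have a0 := ta n (by omega)
  have a1 := ta (n + 1) (by omega)
  have a2 := ta (n + 2) hn
  have d0 := te n (by omega)
  have d1 := te (n + 1) (by omega)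
  have d2 := te (n + 2) hn
  have s1 := h1.st n hn
  have s2 := h2.st n hn
  have s3 := h3.st n hn
  exact ⟨(d2.mul hπ d0).eq (a1.pow hπ 2) s1.e1 s2.e1 s3.e1,
    ((a2.mul hπ d0).add (a0.mul hπ d2)).eq (d1.mul hπ ((t4.mul hπ a1).add (t6.mul hπ d1)))
      s1.e2 s2.e2 s3.e2,
    (a2.mul hπ a0).eq (d1.mul hπ ((t6.mul hπ a1).add (t8.mul hπ d1))).neg s1.e3 s2.e3 s3.e3⟩

lemma cop_b {W : WeierstrassCurve R} (h6 : W.a₆ = 0) (h : IsCoprime W.a₃ W.a₄) :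
    IsCoprime W.b₆ W.b₈ := by
  have e6 : W.b₆ = W.a₃ ^ 2 := by simp [b₆, h6]
  have e8 : W.b₈ = -W.a₄ ^ 2 + W.a₃ * (W.a₂ * W.a₃ - W.a₁ * W.a₄) := by simp only [b₈, h6]; ring
  rw [e6, e8]
  exact (h.pow_right.neg_right.add_mul_left_right _).pow_left

end ring

section field
variable {K : Type*} [Field K] [DecidableEq K] {W : WeierstrassCurve K}

/-- `(a : D)` is the abscissa of `A`. -/
def Rep (W : WeierstrassCurve K) (A : W.toAffine.Point) (a D : K) : Prop :=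
  (A = 0 ∧ D = 0 ∧ a ≠ 0) ∨ (D ≠ 0 ∧ ∃ x s, Pt W A x s ∧ x * D = a)

lemma Rep.step (h2 : (2 : K) ≠ 0) {P A : W.toAffine.Point} {t a' D' a D X Y : K}
    (hP : Pt W P 0 t) (r' : Rep W (A - P) a' D') (r : Rep W A a D)
    (h : St W.b₄ W.b₆ W.b₈ a' D' a D X Y) (hc : IsCoprime X Y) : Rep W (A + P) X Y := by
  have h4 : (4 : K) ≠ 0 := by rw [show (4 : K) = 2 * 2 by norm_num]; exact mul_ne_zero h2 h2
  have ht : t ^ 2 = W.b₆ := by simpa [ff] using hP.eqn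
  obtain ⟨e1, e2, e3⟩ := h
  rcases r with ⟨rfl, rfl, ha⟩ | ⟨hD, x, s, hA, rfl⟩
  · rw [zero_sub] at r'
    rcases r' with ⟨k, -⟩ | ⟨hD', x, s, k, rfl⟩
    · exact absurd k hP.neg.ne_zero
    obtain ⟨rfl, -⟩ := k.inj hP.neg
    refine Or.inr ⟨fun k => ha (by simpa [k] using e1.symm), 0, t, by rwa [zero_add], ?_⟩
    simpa [hD', eq_comm] using e2
  by_cases k : A + P = 0
  · have hA' : A = -P := eq_neg_of_add_eq_zero_left k
    obtain ⟨rfl, rfl⟩ := hA.inj (hA' ▸ hP.neg)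
    have hY : Y = 0 := by
      rcases r' with ⟨k', rfl, ha'⟩ | ⟨hD', -⟩
      · have := (hA.inj (sub_eq_zero.1 k' ▸ hP)).2
        have t0 : t = 0 := mul_left_cancel₀ h2 (by linear_combination -this)
        rw [← ht, t0] at e2
        simpa [ha'] using e2
      · simpa [hD'] using e1
    exact Or.inl ⟨k, hY, fun k => by simp [hY, k] at hc⟩
  obtain ⟨x3, s3, m, ad, p3⟩ := Pt.add h2 hA hP (Pt.ne_of_add_ne h2 hA hP k)
  rcases r' with ⟨k', rfl, ha'⟩ | ⟨hD', x4, s4, p4, rfl⟩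
  · obtain ⟨rfl, rfl⟩ := hA.inj (sub_eq_zero.1 k' ▸ hP)
    have t0 : s ≠ 0 := fun t0 => Pt.ne_of_add_ne h2 hA hP k ⟨rfl, by simp [t0]⟩
    have hY : Y ≠ 0 := fun hY => by
      rw [hY, ← ht] at e2
      simp [hD, t0] at e2
    refine Or.inr ⟨hY, x3, s3, p3, mul_left_cancel₀ ha' (mul_left_cancel₀ (mul_ne_zero h4 h4) ?_)⟩
    linear_combination 16 * x3 * e2 - 16 * e3 + 4 * D ^ 2 * W.b₆ * ad.h3 + 4 * D ^ 2 * W.b_relation +
      D ^ 2 * (m * (s + s) + 2 * W.b₄) * ad.h2 - 4 * m ^ 2 * D ^ 2 * ht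
  · have k' : A + -P ≠ 0 := by rw [← sub_eq_add_neg]; exact p4.ne_zero
    obtain ⟨x5, s5, m', ad', p5⟩ := Pt.add h2 hA hP.neg (Pt.ne_of_add_ne h2 hA hP.neg k')
    rw [← sub_eq_add_neg] at p5
    obtain ⟨rfl, rfl⟩ := p4.inj p5
    have q := hA.eqn
    have hx : x ≠ 0 := by
      rintro rfl
      have : (s + t) * (s + -t) = 0 := by
        simp only [ff] at q
        linear_combination q - ht
      rcases mul_eq_zero.1 this with z | z
      · exact Pt.ne_of_add_ne h2 hA hP k ⟨rfl, z⟩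
      · exact Pt.ne_of_add_ne h2 hA hP.neg k' ⟨rfl, z⟩
    refine Or.inr ⟨fun hY => pow_ne_zero 2 (mul_ne_zero hx hD) (by rw [← e1, hY, zero_mul]),
      x3, s3, p3, mul_right_cancel₀ hD' (mul_left_cancel₀ h4 ?_)⟩
    unfold ff at q
    linear_combination (-4) * e2 + 4 * (x3 + x4) * e1 + D ^ 2 * x ^ 2 * (ad.h3 + ad'.h3) +
      D ^ 2 * ((m * (0 - x) + (t - s)) * ad.h1 + (m' * (0 - x) + (-t - s)) * ad'.h1 + 2 * q + 2 * ht)

lemma Ch.rep (h2 : (2 : K) ≠ 0) {P : W.toAffine.Point} {t : K} (hP : Pt W P 0 t)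
    (hb : IsCoprime W.b₆ W.b₈) {N : ℕ} {A E : ℕ → K} (h : Ch N W.b₄ W.b₆ W.b₈ A E) :
    ∀ n, n ≤ N → Rep W (n • P) (A n) (E n)
  | 0, _ => Or.inl ⟨zero_nsmul _, h.D0, by simp [h.a0]⟩
  | 1, _ => Or.inr ⟨by simp [h.D1], 0, t, by rwa [one_nsmul], by simp [h.a1]⟩
  | n + 2, hn => by
    rw [succ_nsmul]
    refine Rep.step h2 hP ?_ (h.rep h2 hP hb (n + 1) (by omega)) (h.st n hn) (h.cop hb _ hn)
    rw [succ_nsmul, add_sub_cancel_right]
    exact h.rep h2 hP hb n (by omega)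

end field

end Pool.Agent.MP_c74c64_nt.H6
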