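import Mathlib

/-!
Curves through the origin and exceptional primes.
-/

namespace Pool.Agent.MP_c74c64_nt.H6

open WeierstrassCurve WeierstrassCurve.Affine

/-- The curve `y² + a₁xy + a₃y = x³ + a₂x² + a₄x`. -/
def curve {R : Type} [CommRing R] (a₁ a₂ a₃ a₄ : R) : WeierstrassCurve R := ⟨a₁, a₂, a₃, a₄, 0⟩

/-- `p` is a good prime outside `Λ`: the numerator `a` of the abscissa of `N_p P` satisfies
`a ^ (p - 1) ≡ 1 (mod p²)`. -/
def Exceptional (W : WeierstrassCurve ℤ) (P : (W.map (Int.castRingHom ℚ)).toAffine.Point)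
    (p : ℕ) : Prop :=
  p.Prime ∧ ¬ (p : ℤ) ∣ W.Δ ∧ ∃ (x y : ℚ) (h : (W.map (Int.castRingHom ℚ)).toAffine.Nonsingular x y),
    Nat.card (W.map (Int.castRingHom (ZMod p))).toAffine.Point • P = .some x y h ∧
      x.num ^ (p - 1) ≡ 1 [ZMOD (p : ℤ) ^ 2]

/-- `W` is an elliptic curve, and `P` is the point `(0,0)`, has infinite order and reduces to a
nonsingular point modulo every prime. -/
def Admissible (W : WeierstrassCurve ℤ) (P : (W.map (Int.castRingHom ℚ)).toAffine.Point) : Prop :=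
  W.Δ ≠ 0 ∧ (∃ h, P = .some 0 0 h) ∧ ¬ IsOfFinAddOrder P ∧
    ∀ l : ℕ, l.Prime → (W.map (Int.castRingHom (ZMod l))).toAffine.Nonsingular 0 0

end Pool.Agent.MP_c74c64_nt.H6
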