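import Pool.Agent.MP_c74c64_nt.H6.Chain

/-!
The linearised recursion along the Ramanujan vector field, and point counts divisible by `p`.
-/

namespace Pool.Agent.MP_c74c64_nt.H6

open WeierstrassCurve WeierstrassCurve.Affine Polynomial

/-- One step of the linearised recursion. -/
structure LSt {R : Type*} [CommRing R] (b4 b6 b8 c4 c6 c8 a' D' a D X Y α' Δ' α Δ ξ η : R) :
    Prop where
  l1 : η * D' + Y * Δ' = 2 * a * α
  l2 : ξ * D' + X * Δ' + α' * Y + a' * η =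
    Δ * (b4 * a + b6 * D) + D * (c4 * a + b4 * α + c6 * D + b6 * Δ)
  l3 : ξ * a' + X * α' = -(Δ * (b6 * a + b8 * D) + D * (c6 * a + b6 * α + c8 * D + b8 * Δ))

section field
variable {F : Type*} [Field F]

lemma claimAB (h2 : (2 : F) ≠ 0) {b2 b4 b6 t x s x3 s3 m x4 s4 m' σ : F} (ht : t ^ 2 = b6)
    (h : Add3 b2 b4 0 t x s x3 s3 m) (h' : Add3 b2 b4 0 t x4 s4 x s m') :
    x * ((σ + m) ^ 2 - 4 * x3 + ((σ - m') ^ 2 - 4 * x4) - 2 * (σ ^ 2 - 4 * x) - 2 * b2) =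
      2 * (2 * s * σ + 8 * x ^ 2) ∧
    x ^ 2 * (x3 + x4) = b4 * x + b6 ∧
    x ^ 2 * (2 * s3 * (σ + m) + 8 * x3 ^ 2 + (2 * s4 * (σ - m') + 8 * x4 ^ 2)) +
      2 * x * (2 * s * σ + 8 * x ^ 2) * (x3 + x4) =
      (12 * b6 - 2 * b2 * b4) * x + b4 * (2 * s * σ + 8 * x ^ 2) + -2 * b2 * b6 := by
  have e1 : t = -(m + m') * x / 2 := by field_simp; linear_combination h.h1 + h'.h4
  have e2 : s = (m - m') * x / 2 := by field_simp; linear_combination -h.h1 + h'.h4
  have e3 : x3 = (m ^ 2 - b2) / 2 / 2 - x := by field_simp; linear_combination h.h3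
  have e4 : x4 = (m' ^ 2 - b2) / 2 / 2 - x := by field_simp; linear_combination h'.h3
  have e5 : s3 = -t - m * x3 := by linear_combination h.h4
  have e6 : s4 = t + m' * x4 := by linear_combination -h'.h1
  have e7 : b4 = (m * (t + s) - 4 * x ^ 2 - b2 * x) / 2 := by field_simp; linear_combination -h.h2
  rw [e7, ← ht, e5, e6, e3, e4, e1, e2]
  refine ⟨?_, ?_, ?_⟩ <;> field_simp <;> ring

lemma lin_field (h2 : (2 : F) ≠ 0) {n : ℕ} (hp : ((n + 3 : ℕ) : F) = 0) {b2 b4 b6 b8 t : F}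
    (ht : t ^ 2 = b6) {x s m σ A E α Δ : ℕ → F}
    (x1 : x 1 = 0) (s1 : s 1 = t) (σ1 : σ 1 = 0) (hσ : ∀ j, 1 ≤ j → σ (j + 1) = σ j + m j)
    (ad : ∀ j, 1 ≤ j → j ≤ n + 1 → Add3 b2 b4 0 t (x j) (s j) (x (j + 1)) (s (j + 1)) (m j))
    (x2 : x (n + 2) = 0) (s2 : s (n + 2) = -t)
    (hA : ∀ j, 1 ≤ j → j ≤ n + 2 → A j = x j * E j) (hE : ∀ j, 1 ≤ j → j ≤ n + 2 → E j ≠ 0)
    (hc : Ch (n + 3) b4 b6 b8 A E) (α0 : α 0 = 0) (Δ0 : Δ 0 = 0) (α1 : α 1 = 0) (Δ1 : Δ 1 = 0)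
    (hl : ∀ j, j + 2 ≤ n + 3 → LSt b4 b6 b8 (12 * b6 - 2 * b2 * b4) (-2 * b2 * b6)
      (2 * b4 * b6 - 4 * b2 * b8) (A j) (E j) (A (j + 1)) (E (j + 1)) (A (j + 2)) (E (j + 2))
      (α j) (Δ j) (α (j + 1)) (Δ (j + 1)) (α (j + 2)) (Δ (j + 2))) :
    α (n + 3) = A (n + 3) * σ (n + 2) ^ 2 := by
  let L : ℕ → F := fun j => σ j ^ 2 - 4 * x j - ((j : F) ^ 2 - 1) * b2
  let Q : ℕ → Prop := fun j => Δ j = L j * E j ∧
    α j = (2 * s j * σ j + 8 * x j ^ 2 + x j * L j) * E j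
  have q1 : Q 1 := by simp [Q, L, Δ1, α1, σ1, x1]
  have q2 : Q 2 := by
    obtain ⟨-, l2, l3⟩ := hl 0 (by omega)
    obtain ⟨-, e2, e3⟩ := hc.st 0 (by omega)
    have a := ad 1 le_rfl (by omega)
    have k := hA 2 (by omega) (by omega)
    have z := hσ 1 le_rfl
    simp only [zero_add, Nat.reduceAdd, hc.a0, hc.D0, hc.a1, hc.D1, α0, Δ0, α1, Δ1, x1, s1, σ1]
      at l2 l3 e2 e3 a z
    have m1 : m 1 * t = b4 := mul_left_cancel₀ h2 (by linear_combination a.h2)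
    have E2 : E 2 = b6 := by linear_combination e2
    have L2 : L 2 = -2 * b2 := by
      simp only [L, z]
      push_cast
      linear_combination -a.h3
    refine ⟨by rw [L2, E2]; linear_combination l2, ?_⟩
    rw [L2, z, a.h4]
    linear_combination l3 + (2 * b4) * E2 + 2 * E 2 * m1 - 2 * x 2 * E 2 * a.h3 -
      4 * b2 * k + 4 * b2 * e3
  have qq : ∀ j, j ≤ n → Q (j + 1) ∧ Q (j + 2) := by
    intro j
    induction j with
    | zero => exact fun _ => ⟨q1, q2⟩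
    | succ j ih =>
      intro hj
      obtain ⟨⟨d1, a1⟩, d2, a2⟩ := ih (by omega)
      refine ⟨⟨d2, a2⟩, ?_⟩
      obtain ⟨l1, l2, -⟩ := hl (j + 1) (by omega)
      obtain ⟨e1, -, -⟩ := hc.st (j + 1) (by omega)
      have z1 := hσ (j + 1) (by omega)
      have z2 := hσ (j + 2) (by omega)
      obtain ⟨cA, cB, cC⟩ := claimAB (σ := σ (j + 2)) h2 ht (ad (j + 2) (by omega) (by omega))
        (ad (j + 1) (by omega) (by omega))
      have y1 : σ (j + 2) - m (j + 1) = σ (j + 1) := by rw [z1]; ring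
      rw [← z2, y1] at cA cC
      have cL : x (j + 2) * (L (j + 3) + L (j + 1) - 2 * L (j + 2)) =
          2 * (2 * s (j + 2) * σ (j + 2) + 8 * x (j + 2) ^ 2) := by
        simp only [L]
        push_cast
        linear_combination cA
      have n1 := hE (j + 1) (by omega) (by omega)
      have k1 := hA (j + 1) (by omega) (by omega)
      have k2 := hA (j + 2) (by omega) (by omega)
      have k3 := hA (j + 3) (by omega) (by omega)
      simp only [add_assoc, Nat.reduceAdd] at *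
      rw [k2, d1, a2] at l1
      rw [k2] at e1
      have d3 : Δ (j + 3) = L (j + 3) * E (j + 3) := mul_right_cancel₀ n1 (by
        linear_combination l1 - (L (j + 3) + L (j + 1)) * e1 - x (j + 2) * E (j + 2) ^ 2 * cL)
      refine ⟨d3, mul_right_cancel₀ n1 ?_⟩
      rw [k1, k2, k3, d1, d2, d3, a1, a2] at l2
      generalize L (j + 1) = L1, L (j + 2) = L2, L (j + 3) = L3 at *
      linear_combination l2 - (2 * s (j + 3) * σ (j + 3) + 8 * x (j + 3) ^ 2 +
          (2 * s (j + 1) * σ (j + 1) + 8 * x (j + 1) ^ 2) + (x (j + 3) + x (j + 1)) * (L3 + L1)) * e1 -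
        E (j + 2) ^ 2 * cC - 2 * L2 * E (j + 2) ^ 2 * cB -
        E (j + 2) ^ 2 * x (j + 2) * (x (j + 3) + x (j + 1)) * cL
  obtain ⟨⟨d1, a1⟩, d2, a2⟩ := qq n le_rfl
  obtain ⟨l1, l2, -⟩ := hl (n + 1) (by omega)
  obtain ⟨e1, e2, -⟩ := hc.st (n + 1) (by omega)
  have a := ad (n + 1) (by omega) le_rfl
  have z := hσ (n + 1) (by omega)
  have n1 := hE (n + 1) (by omega) (by omega)
  have k2 := hA (n + 2) (by omega) (by omega)
  simp only [add_assoc, Nat.reduceAdd] at *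
  rw [x2, zero_mul] at k2
  rw [x2, s2] at a
  have y0 : E (n + 3) = 0 := by simpa [k2, n1] using e1
  have y1 : Δ (n + 3) = 0 := by simpa [k2, n1, y0] using l1
  have m1 : m (n + 1) * t = b4 := mul_left_cancel₀ h2 (by
    linear_combination a.h2 + m (n + 1) * a.h1 + x (n + 1) * a.h3)
  push_cast at hp
  have L2 : L (n + 2) = σ (n + 2) ^ 2 := by
    simp only [L, x2]
    push_cast
    linear_combination (-((n : F) + 1) * b2) * hp
  have L1 : L (n + 1) = σ (n + 2) ^ 2 - 2 * σ (n + 2) * m (n + 1) - 2 * b2 := by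
    simp only [L, z]
    push_cast
    linear_combination -a.h3 - ((n : F) - 1) * b2 * hp
  rw [k2, y0, y1, d1, d2, a2, x2, s2, L1, L2] at l2
  rw [k2, y0] at e2
  apply mul_right_cancel₀ n1
  linear_combination l2 - (2 * σ (n + 2) ^ 2 - 2 * σ (n + 2) * m (n + 1) - 2 * b2) * e2 +
    2 * E (n + 2) ^ 2 * σ (n + 2) * t * m1 - 2 * E (n + 2) ^ 2 * σ (n + 2) * m (n + 1) * ht

lemma not_all_sq (h2 : (2 : F) ≠ 0) [Fintype F] {k : ℕ} (hk : Fintype.card F = 2 * (k + 3) + 1)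
    (hm : ((k + 3 : ℕ) : F) ≠ 0) {β γ : F} (hγ : γ ≠ 0)
    (h : ∀ x : F, x ≠ 0 → ∃ s, s ≠ 0 ∧ s ^ 2 = x * (4 * x ^ 2 + β * x + γ)) : False := by
  have fe : ∀ x : F, x ≠ 0 → x ^ (2 * (k + 3)) = 1 := fun x hx => by
    have := FiniteField.pow_card_sub_one_eq_one x hx
    rwa [hk, Nat.add_sub_cancel] at this
  let g : F[X] := 4 * X ^ 2 + C β * X + C γ
  have dg : g.natDegree ≤ 2 := by simp only [g]; compute_degree
  have z : g ^ (k + 3) - X ^ (k + 3) + C (γ ^ (k + 3)) * (X ^ (2 * (k + 3)) - 1) = 0 := by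
    refine eq_zero_of_natDegree_lt_card_of_eval_eq_zero _ Function.injective_id (fun x => ?_) ?_
    · by_cases hx : x = 0
      · simp [g, hx]
      obtain ⟨s, hs, e⟩ := h x hx
      have e1 := fe s hs
      rw [pow_mul, e, mul_pow] at e1
      have e2 := fe x hx
      simp only [g, id, eval_add, eval_sub, eval_mul, eval_pow, eval_X, eval_C, eval_one, eval_ofNat,
        e2, sub_self, mul_zero, add_zero]
      rw [two_mul, pow_add] at e2
      linear_combination x ^ (k + 3) * e1 - (4 * x ^ 2 + β * x + γ) ^ (k + 3) * e2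
    · rw [hk, Nat.lt_succ_iff]
      refine (natDegree_add_le _ _).trans (max_le ((natDegree_sub_le _ _).trans (max_le ?_ ?_)) ?_)
      · exact natDegree_pow_le.trans (by nlinarith)
      · simp
      · compute_degree!
  have d := congrArg derivative z
  have dg' : derivative g = 8 * X + C β := by
    simp only [g, derivative_add, derivative_mul, derivative_X_pow, derivative_C, derivative_X,
      derivative_ofNat]
    simp only [Nat.cast_ofNat, map_ofNat]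
    ring
  simp only [derivative_add, derivative_sub, derivative_mul, derivative_pow, derivative_X, dg',
    derivative_C, derivative_one, derivative_zero] at d
  have hC : (C ((k + 3 : ℕ) : F) : F[X]) ≠ 0 := C_ne_zero.2 hm
  have d1 : g ^ (k + 2) * (8 * X + C β) =
      X * (X ^ (k + 1) - C (γ ^ (k + 3)) * 2 * X ^ (2 * k + 4)) := by
    apply mul_left_cancel₀ hC
    have e1 : k + 3 - 1 = k + 2 := by omega
    have e2 : 2 * (k + 3) - 1 = 2 * k + 5 := by omega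
    rw [e1, e2, Nat.cast_mul, map_mul, Nat.cast_ofNat, map_ofNat] at d
    linear_combination d
  have b0 : β = 0 := by simpa [g, hγ] using congrArg (eval 0) d1
  have d2 : g ^ (k + 2) * 8 = X ^ (k + 1) - C (γ ^ (k + 3)) * 2 * X ^ (2 * k + 4) := by
    apply mul_left_cancel₀ X_ne_zero
    rw [← d1, b0, C_0]
    ring
  have h8 : (8 : F) ≠ 0 := by
    rw [show (8 : F) = 2 ^ 3 by norm_num]; exact pow_ne_zero _ h2
  simpa [g, hγ, h8] using congrArg (eval 0) d2

end field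

variable {p : ℕ} [Fact p.Prime] {W : WeierstrassCurve (ZMod p)}

lemma sep (h2 : (2 : ZMod p) ≠ 0) (hΔ : W.Δ ≠ 0) (r : ZMod p) (h : ff W.b₂ W.b₄ W.b₆ r = 0) :
    fd W.b₂ W.b₄ r ≠ 0 := by
  intro k
  obtain ⟨A, y, hy, -, e⟩ := Pt.mk (W := W) h2 hΔ (x := r) (s := 0) (by simpa using h.symm)
  rcases ((nonsingular_iff' _ _).1 hy).2 with a | a
  · apply a
    apply mul_left_cancel₀ (mul_ne_zero h2 h2)
    simp only [fd, b₂, b₄] at k
    linear_combination -k - 2 * W.a₁ * e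
  · exact a e.symm

open Finset in
lemma card_le (h2 : (2 : ZMod p) ≠ 0) : Finite W.toAffine.Point ∧ Nat.card W.toAffine.Point ≤
    1 + ∑ x : ZMod p, #{s : ZMod p | s ^ 2 = ff W.b₂ W.b₄ W.b₆ x} := by
  classical
  have k : ∀ A : W.toAffine.Point,
      ∃ o : Option (Σ x : ZMod p, {s : ZMod p // s ^ 2 = ff W.b₂ W.b₄ W.b₆ x}),
        (o = none → A = 0) ∧ ∀ q, o = some q → Pt W A q.1 q.2 := fun A => by
    by_cases h : A = 0
    · exact ⟨none, fun _ => h, by simp⟩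
    · obtain ⟨x, s, hA⟩ := Pt.of_ne_zero h
      exact ⟨some ⟨x, s, hA.eqn⟩, by simp, by rintro _ ⟨⟩; exact hA⟩
  choose f h0 h1 using k
  have inj : Function.Injective f := fun A B e => by
    rcases hf : f A with _ | q
    · rw [h0 A hf, h0 B (e ▸ hf)]
    · exact Pt.ext h2 (h1 A q hf) (h1 B q (e ▸ hf))
  refine ⟨Finite.of_injective f inj, (Nat.card_le_card_of_injective f inj).trans ?_⟩
  simp [Fintype.card_subtype, add_comm]

open Finset in
lemma sq_le (c : ZMod p) : #{s : ZMod p | s ^ 2 = c} ≤ 2 := by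
  classical
  rcases (univ.filter fun s : ZMod p => s ^ 2 = c).eq_empty_or_nonempty with h | ⟨t, ht⟩
  · simp [h]
  refine (card_le_card fun s hs => ?_).trans (card_le_two (a := t) (b := -t))
  simp only [mem_filter, mem_univ, true_and] at ht hs
  simpa using sq_eq_sq_iff_eq_or_eq_neg.1 (hs.trans ht.symm)

open Finset in
lemma card_eq (hp : 7 ≤ p) (hΔ : W.Δ ≠ 0) (h : p ∣ Nat.card W.toAffine.Point) :
    Nat.card W.toAffine.Point = p := by
  classical
  have h2 : (2 : ZMod p) ≠ 0 := two_ne (by omega)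
  obtain ⟨_, hc⟩ := card_le (W := W) h2
  have pos : 0 < Nat.card W.toAffine.Point := Nat.card_pos
  obtain ⟨c, e⟩ := h
  have b : ∑ x : ZMod p, #{s : ZMod p | s ^ 2 = ff W.b₂ W.b₄ W.b₆ x} ≤ 2 * p := by
    simpa [mul_comm] using sum_le_card_nsmul univ _ 2 fun x _ => sq_le (ff W.b₂ W.b₄ W.b₆ x)
  have c3 : c < 3 := by by_contra k; nlinarith
  have c0 : c ≠ 0 := by rintro rfl; omega
  rcases (by omega : c = 1 ∨ c = 2) with rfl | rfl
  · omega
  exfalso
  obtain ⟨T, hT⟩ := exists_prime_addOrderOf_dvd_card' (G := W.toAffine.Point) 2 (by omega)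
  have T0 : T ≠ 0 := by rintro rfl; simp at hT
  obtain ⟨r, s, hr⟩ := Pt.of_ne_zero T0
  have s0 : s = 0 := by
    have : -T = T := by rw [neg_eq_iff_add_eq_zero, ← two_nsmul, ← hT, addOrderOf_nsmul_eq_zero]
    have := (hr.inj (this ▸ hr.neg)).2
    exact mul_left_cancel₀ h2 (by linear_combination this)
  have fr : ff W.b₂ W.b₄ W.b₆ r = 0 := by simpa [s0] using hr.eqn.symm
  have one : ∀ x, ¬ (∃ s, s ≠ 0 ∧ s ^ 2 = ff W.b₂ W.b₄ W.b₆ x) →
      #{s : ZMod p | s ^ 2 = ff W.b₂ W.b₄ W.b₆ x} ≤ 1 := fun x hx => by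
    refine (card_le_card fun s hs => ?_).trans (card_singleton (0 : ZMod p)).le
    simp only [mem_filter, mem_univ, true_and] at hs
    by_contra k
    exact hx ⟨s, by simpa using k, hs⟩
  obtain ⟨k, hk⟩ : ∃ k, p = 2 * (k + 3) + 1 := by
    obtain ⟨k, hk⟩ := (Fact.out : p.Prime).odd_of_ne_two (by omega)
    exact ⟨k - 3, by omega⟩
  refine not_all_sq h2 (k := k) (by rw [ZMod.card, ← hk]) ?_ (β := 12 * r + W.b₂)
    (sep h2 hΔ r fr) fun x hx => ?_
  · rw [Ne, ZMod.natCast_eq_zero_iff]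
    exact Nat.not_dvd_of_pos_of_lt (by omega) (by omega)
  have e' : x * (4 * x ^ 2 + (12 * r + W.b₂) * x + fd W.b₂ W.b₄ r) =
      ff W.b₂ W.b₄ W.b₆ (x + r) := by
    unfold ff fd at *
    linear_combination -fr
  rw [e']
  by_contra n
  have n1 := one _ n
  have n2 := one r (by rintro ⟨s, a, b⟩; rw [fr] at b; exact a (pow_eq_zero_iff two_ne_zero |>.1 b))
  have ne : x + r ∈ univ.erase r := by simpa using hx
  rw [← add_sum_erase _ _ (mem_univ r), ← add_sum_erase _ _ ne] at hc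
  have b' := sum_le_card_nsmul ((univ.erase r).erase (x + r)) _ 2
    fun x _ => sq_le (ff W.b₂ W.b₄ W.b₆ x)
  rw [card_erase_of_mem ne, card_erase_of_mem (mem_univ r), card_univ, ZMod.card, smul_eq_mul] at b'
  omega

lemma anom (hp : p ≠ 2) (hΔ : W.Δ ≠ 0) (hN : Nat.card W.toAffine.Point = p)
    {P : W.toAffine.Point} {t : ZMod p} (hP : Pt W P 0 t) (hb : IsCoprime W.b₆ W.b₈)
    {A E α Δ : ℕ → ZMod p} (hc : Ch p W.b₄ W.b₆ W.b₈ A E)
    (α0 : α 0 = 0) (Δ0 : Δ 0 = 0) (α1 : α 1 = 0) (Δ1 : Δ 1 = 0)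
    (hl : ∀ j, j + 2 ≤ p → LSt W.b₄ W.b₆ W.b₈ (12 * W.b₆ - 2 * W.b₂ * W.b₄) (-2 * W.b₂ * W.b₆)
      (2 * W.b₄ * W.b₆ - 4 * W.b₂ * W.b₈) (A j) (E j) (A (j + 1)) (E (j + 1)) (A (j + 2))
      (E (j + 2)) (α j) (Δ j) (α (j + 1)) (Δ (j + 1)) (α (j + 2)) (Δ (j + 2))) :
    ∃ σ, σ ≠ 0 ∧ α p = A p * σ ^ 2 := by
  have h2 : (2 : ZMod p) ≠ 0 := two_ne hp
  have two := (Fact.out : p.Prime).two_le
  have nz : ∀ j, 1 ≤ j → j < p → j • P ≠ 0 := fun j a b =>
    nsmul_ne_zero_of_card hN hP.ne_zero a b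
  have k : ∀ j : ℕ, ∃ x s, 1 ≤ j → j < p → Pt W (j • P) x s := fun j => by
    by_cases h : 1 ≤ j ∧ j < p
    · obtain ⟨x, s, e⟩ := Pt.of_ne_zero (nz j h.1 h.2)
      exact ⟨x, s, fun _ _ => e⟩
    · exact ⟨0, 0, fun a b => absurd ⟨a, b⟩ h⟩
  choose x s hx using k
  have k : ∀ j : ℕ, ∃ m, 1 ≤ j → j + 1 < p →
      Add3 W.b₂ W.b₄ 0 t (x j) (s j) (x (j + 1)) (s (j + 1)) m := fun j => by
    by_cases h : 1 ≤ j ∧ j + 1 < p
    · have a := hx j h.1 (by omega)
      obtain ⟨x3, s3, m, e, q⟩ := Pt.add h2 hP a (Pt.ne_of_add_ne h2 hP a (by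
        rw [← succ_nsmul']; exact nz _ (by omega) h.2))
      rw [← succ_nsmul'] at q
      obtain ⟨rfl, rfl⟩ := q.inj (hx (j + 1) (by omega) h.2)
      exact ⟨m, fun _ _ => e⟩
    · exact ⟨0, fun a b => absurd ⟨a, b⟩ h⟩
  choose m hm using k
  obtain ⟨n, hn⟩ : ∃ n, p = n + 3 := ⟨p - 3, by omega⟩
  obtain ⟨x1, s1⟩ := (hx 1 le_rfl (by omega)).inj (by rwa [one_nsmul])
  have l := (hx (p - 1) (by omega) (by omega)).neg
  rw [pred_nsmul hN, show p - 1 = n + 2 by omega] at l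
  obtain ⟨x2, s2⟩ := l.inj hP
  have r : ∀ j, 1 ≤ j → j ≤ n + 2 → E j ≠ 0 ∧ A j = x j * E j := fun j a b => by
    rcases hc.rep h2 hP hb j (by omega) with ⟨e, -⟩ | ⟨e, x', s', q, e'⟩
    · exact absurd e (nz j a (by omega))
    · exact ⟨e, by rw [← e', (q.inj (hx j a (by omega))).1]⟩
  refine ⟨∑ j ∈ Finset.range (n + 1), m (j + 1), ?_, ?_⟩
  · refine Mil.ne_zero p h2 ZMod.pow_card (sep h2 hΔ)
      (Mil.of_chain p h2 rfl x s m (n + 1) (by omega) (fun j a b => ?_) (fun j a b e => ?_)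
        (fun j a b => ?_) (by rw [x1, x2]) (by rw [s1, ← s2, neg_neg]))
    · rw [fP_eval]; exact (hx j a (by omega)).eqn
    · have q := hx j a (by omega)
      have := nsmul_ne_zero_of_card hN q.ne_zero (j := 2) (by omega) (by omega)
      rw [two_nsmul] at this
      exact this (Pt.add_eq_zero h2 q q (by simp [e]))
    · rw [x1, s1]; exact hm j a (by omega)
  · have := lin_field h2 (n := n) (by rw [← hn, ZMod.natCast_self]) (b2 := W.b₂) (t := t)
      (by simpa [ff] using hP.eqn) (σ := fun j => ∑ i ∈ Finset.range (j - 1), m (i + 1))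
      x1 s1 (by simp) (fun j a => by
        obtain ⟨j, rfl⟩ := Nat.exists_eq_add_of_le' a
        simp [Finset.sum_range_succ]) (fun j a b => hm j a (by omega)) x2
      (by rw [← s2, neg_neg]) (fun j a b => (r j a b).2) (fun j a b => (r j a b).1)
      (hn ▸ hc) α0 Δ0 α1 Δ1 (fun j a => hl j (by omega))
    rw [← hn] at this
    exact this

end Pool.Agent.MP_c74c64_nt.H6
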