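import Pool.Agent.MP_c74c64_nt.H6.Defs
import Pool.Agent.MP_c74c64_nt.H6.Lin

/-!
The exceptional residue classes modulo `p²` form an affine hyperplane over each good class.
-/

namespace Pool.Agent.MP_c74c64_nt.H6

open WeierstrassCurve WeierstrassCurve.Affine

section ring
variable {R S : Type} [CommRing R] [CommRing S]

lemma curve_map (φ : R →+* S) (a₁ a₂ a₃ a₄ : R) :
    (curve a₁ a₂ a₃ a₄).map φ = curve (φ a₁) (φ a₂) (φ a₃) (φ a₄) := by
  ext <;> simp [curve]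

variable (a₁ a₂ a₃ a₄ : R)

lemma curve_b₂ : (curve a₁ a₂ a₃ a₄).b₂ = a₁ ^ 2 + 4 * a₂ := rfl
lemma curve_b₄ : (curve a₁ a₂ a₃ a₄).b₄ = a₄ + a₄ + a₁ * a₃ := by simp only [curve, b₄]; ring
lemma curve_b₆ : (curve a₁ a₂ a₃ a₄).b₆ = a₃ * a₃ := by simp only [curve, b₆]; ring
lemma curve_b₈ : (curve a₁ a₂ a₃ a₄).b₈ = a₂ * (a₃ * a₃) + -(a₁ * a₃ * a₄) + -(a₄ * a₄) := by
  simp only [curve, b₈]; ring

lemma one_add_pow {π : R} (hπ : π ^ 2 = 0) (κ : R) (n : ℕ) : (1 + π * κ) ^ n = 1 + π * (n * κ) := by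
  induction n with
  | zero => simp
  | succ n ih => rw [pow_succ, ih]; push_cast; linear_combination (n * κ ^ 2) * hπ

end ring

variable {p : ℕ} [Fact p.Prime]

/-- The class of `p` modulo `p²`. -/
abbrev pp (p : ℕ) : ZMod (p ^ 2) := p

/-- Reduction modulo `p`. -/
abbrev rh (p : ℕ) : ZMod (p ^ 2) →+* ZMod p := ZMod.castHom (dvd_pow_self p two_ne_zero) (ZMod p)

lemma rh_p : rh p (pp p) = 0 := by rw [map_natCast, ZMod.natCast_self]

omit [Fact p.Prime] in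
lemma rh_surj : Function.Surjective (rh p) := ZMod.castHom_surjective _

lemma pi_mul (x : ZMod (p ^ 2)) : (pp p) * x = 0 ↔ rh p x = 0 := by
  obtain ⟨x, rfl⟩ := ZMod.intCast_surjective x
  rw [map_intCast, pp, ← Int.cast_natCast, ← Int.cast_mul, ZMod.intCast_zmod_eq_zero_iff_dvd,
    ZMod.intCast_zmod_eq_zero_iff_dvd, Nat.cast_pow, sq]
  exact mul_dvd_mul_iff_left (by exact_mod_cast (Fact.out : p.Prime).ne_zero)

omit [Fact p.Prime] in
lemma exists_of_rh {x y : ZMod (p ^ 2)} (h : rh p x = rh p y) : ∃ i, x = y + pp p * i := by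
  obtain ⟨x, rfl⟩ := ZMod.intCast_surjective x
  obtain ⟨y, rfl⟩ := ZMod.intCast_surjective y
  rw [map_intCast, map_intCast, ZMod.intCast_eq_intCast_iff_dvd_sub] at h
  obtain ⟨i, hi⟩ := h
  exact ⟨-i, by have := congrArg (Int.cast : ℤ → ZMod (p ^ 2)) hi; push_cast at this
                linear_combination -this⟩

lemma unit_of_rh {x : ZMod (p ^ 2)} (h : rh p x ≠ 0) : IsUnit x := by
  obtain ⟨y, hy⟩ := rh_surj (rh p x)⁻¹
  obtain ⟨i, hi⟩ := exists_of_rh (x := x * y) (y := 1) (by rw [map_mul, hy, map_one, mul_inv_cancel₀ h])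
  exact IsUnit.of_mul_eq_one (y * (1 - pp p * i)) (by
    linear_combination (1 - pp p * i) * hi - i ^ 2 * pi_sq (p := p))

lemma cop_of_disc {a₁ a₂ a₃ a₄ : ZMod (p ^ 2)} (h : ((curve a₁ a₂ a₃ a₄).map (rh p)).Δ ≠ 0) :
    IsCoprime (curve a₁ a₂ a₃ a₄).b₆ (curve a₁ a₂ a₃ a₄).b₈ := by
  refine cop_b rfl ?_
  by_cases h3 : rh p a₃ = 0
  · have h4 : rh p a₄ ≠ 0 := fun h4 => h (by
      rw [curve_map, h3, h4]; simp [curve, Δ, b₂, b₄, b₆, b₈])
    obtain ⟨u, hu⟩ := (unit_of_rh h4).exists_left_inv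
    exact ⟨0, u, by simpa [curve] using hu⟩
  · obtain ⟨u, hu⟩ := (unit_of_rh h3).exists_left_inv
    exact ⟨u, 0, by simpa [curve] using hu⟩

/-- The exceptional residue classes modulo `p²`. -/
def Bad (p : ℕ) (a₁ a₂ a₃ a₄ : ZMod (p ^ 2)) : Prop :=
  ((curve a₁ a₂ a₃ a₄).map (rh p)).Δ ≠ 0 ∧ ∃ A E : ℕ → ZMod (p ^ 2),
    Ch (Nat.card ((curve a₁ a₂ a₃ a₄).map (rh p)).toAffine.Point) (curve a₁ a₂ a₃ a₄).b₄
      (curve a₁ a₂ a₃ a₄).b₆ (curve a₁ a₂ a₃ a₄).b₈ A E ∧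
    A (Nat.card ((curve a₁ a₂ a₃ a₄).map (rh p)).toAffine.Point) ^ (p - 1) = 1

lemma hom_eq (f : ZMod (p ^ 2) →+ ZMod p) (x : ZMod (p ^ 2)) : f x = f 1 * rh p x := by
  obtain ⟨x, rfl⟩ := ZMod.intCast_surjective x
  rw [map_intCast (rh p), ← zsmul_one (R := ZMod (p ^ 2)), map_zsmul, zsmul_eq_mul, mul_comm]

theorem local_structure (hp : 7 ≤ p) {a₁ a₂ a₃ a₄ : ZMod (p ^ 2)}
    (hΔ : ((curve a₁ a₂ a₃ a₄).map (rh p)).Δ ≠ 0) :
    ∃ l₂ l₃ l₄ c : ZMod p, (l₂ ≠ 0 ∨ l₃ ≠ 0 ∨ l₄ ≠ 0) ∧ ∀ v₂ v₃ v₄ : ZMod (p ^ 2),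
      Bad p a₁ (a₂ + pp p * v₂) (a₃ + pp p * v₃) (a₄ + pp p * v₄) ↔
        l₂ * rh p v₂ + l₃ * rh p v₃ + l₄ * rh p v₄ = c := by
  have h2 : (2 : ZMod p) ≠ 0 := two_ne (by omega)
  have hπ : pp p ^ 2 = 0 := pi_sq
  set W0 := (curve a₁ a₂ a₃ a₄).map (rh p) with hW0
  set N := Nat.card W0.toAffine.Point with hN
  let W : ZMod (p ^ 2) × ZMod (p ^ 2) × ZMod (p ^ 2) → WeierstrassCurve (ZMod (p ^ 2)) :=
    fun v => curve a₁ (a₂ + pp p * v.1) (a₃ + pp p * v.2.1) (a₄ + pp p * v.2.2)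
  have hW : ∀ v, (W v).map (rh p) = W0 := fun v => by
    simp only [W, hW0, curve_map, map_add, map_mul, rh_p, zero_mul, add_zero]
  have cop : ∀ v, IsCoprime (W v).b₆ (W v).b₈ := fun v => cop_of_disc ((hW v).symm ▸ hΔ)
  choose A E hc using fun v => Ch.ex (W v).b₄ (cop v)
  have cop0 : IsCoprime W0.b₆ W0.b₈ := by
    rw [← hW 0, map_b₆, map_b₈]; exact (cop 0).map _
  have hc0 : ∀ v M, Ch M W0.b₄ W0.b₆ W0.b₈ (fun n => rh p (A v n)) fun n => rh p (E v n) :=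
    fun v M => by
      have := (hc v M).map (rh p)
      rwa [← map_b₄, ← map_b₆, ← map_b₈, hW] at this
  have cg : ∀ v n, (∃ i, A v n = A 0 n + pp p * i) ∧ ∃ i, E v n = E 0 n + pp p * i := fun v n =>
    have := (hc0 v n).uniq cop0 (hc0 0 n) n le_rfl
    ⟨exists_of_rh this.1, exists_of_rh this.2⟩
  obtain ⟨P, hP⟩ := Pt.mk (W := W0) h2 hΔ (x := 0) (s := rh p a₃) (by
    rw [hW0, curve_map, curve_b₆]; simp [ff, sq])
  have nz : ∀ v, rh p (A v N) ≠ 0 := fun v => by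
    rcases (hc0 v N).rep h2 hP cop0 N le_rfl with ⟨-, -, h⟩ | ⟨-, x, s, h, -⟩
    · exact h
    · exact absurd card_nsmul_eq_zero' h.ne_zero
  have k : ∀ v, ∃ g, A v N ^ (p - 1) = 1 + pp p * g := fun v =>
    exists_of_rh (by rw [map_pow, map_one, ZMod.pow_card_sub_one_eq_one (nz v)])
  choose g hg using k
  have add : ∀ v w, rh p (g (v + w)) - rh p (g 0) =
      rh p (g v) - rh p (g 0) + (rh p (g w) - rh p (g 0)) := fun v w => by
    have t : ∀ a x y : ZMod (p ^ 2), Tr (pp p) (a + pp p * x) (a + pp p * 0) (a + pp p * y)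
        (a + pp p * (x + y)) := fun a x y => ⟨⟨x, by ring⟩, ⟨y, by ring⟩, by ring⟩
    have t1 := Tr.const (pp p) a₁
    have t2 := t a₂ v.1 w.1
    have t3 := t a₃ v.2.1 w.2.1
    have t4 := t a₄ v.2.2 w.2.2
    have ta : ∀ n, Tr (pp p) (A v n) (A 0 n) (A w n) (A v n - A 0 n + A w n) :=
      fun n => ⟨(cg v n).1, (cg w n).1, rfl⟩
    have c3 := Ch.tern (b4 := (W (v + w)).b₄) (b6 := (W (v + w)).b₆) (b8 := (W (v + w)).b₈) hπ
      (by simp only [W, curve_b₄]; exact (t4.add t4).add (t1.mul hπ t3))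
      (by simp only [W, curve_b₆]; exact t3.mul hπ t3)
      (by
        simp only [W, curve_b₈]
        exact ((t2.mul hπ (t3.mul hπ t3)).add ((t1.mul hπ t3).mul hπ t4).neg).add
          (t4.mul hπ t4).neg)
      (hc v N) (hc 0 N) (hc w N) (fun n _ => ta n) fun n _ => ⟨(cg v n).2, (cg w n).2, rfl⟩
    have e := ((hc (v + w) N).uniq (cop _) c3 N le_rfl).1
    have e' := ((ta N).pow hπ (p - 1)).2.2
    rw [← e, hg, hg, hg, hg] at e'
    have := (pi_mul (g (v + w) - g v + g 0 - g w)).1 (by linear_combination e')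
    simp only [map_sub, map_add] at this
    linear_combination this
  let f : ZMod (p ^ 2) × ZMod (p ^ 2) × ZMod (p ^ 2) →+ ZMod p :=
    AddMonoidHom.mk' (fun v => rh p (g v) - rh p (g 0)) add
  have lin : ∀ v, f v = f (1, 0, 0) * rh p v.1 + f (0, 1, 0) * rh p v.2.1 +
      f (0, 0, 1) * rh p v.2.2 := fun v => by
    have e : v = (v.1, 0, 0) + (0, v.2.1, 0) + (0, 0, v.2.2) := by simp
    have e1 := hom_eq (f.comp (AddMonoidHom.inl _ _)) v.1
    have e2 := hom_eq (f.comp ((AddMonoidHom.inr _ _).comp (AddMonoidHom.inl _ _))) v.2.1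
    have e3 := hom_eq (f.comp ((AddMonoidHom.inr _ _).comp (AddMonoidHom.inr _ _))) v.2.2
    conv_lhs => rw [e, map_add, map_add]
    exact congrArg₂ _ (congrArg₂ _ e1 e2) e3
  refine ⟨f (1, 0, 0), f (0, 1, 0), f (0, 0, 1), -rh p (g 0), ?_, fun v₂ v₃ v₄ => ?_⟩
  swap
  · rw [← lin (v₂, v₃, v₄)]
    have e : Bad p a₁ (a₂ + pp p * v₂) (a₃ + pp p * v₃) (a₄ + pp p * v₄) ↔
        A (v₂, v₃, v₄) N ^ (p - 1) = 1 := by
      have hw := hW (v₂, v₃, v₄)
      simp only [W] at hw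
      rw [Bad, hw]
      refine ⟨fun ⟨_, A', E', c, e⟩ => ?_, fun e => ⟨hΔ, _, _, hc (v₂, v₃, v₄) N, e⟩⟩
      rwa [((hc (v₂, v₃, v₄) N).uniq (cop _) c N le_rfl).1]
    rw [e, hg, add_eq_left, pi_mul]
    exact sub_eq_neg_self.symm
  suffices h : ∃ v κ, rh p κ ≠ 0 ∧ A v N = A 0 N * (1 + pp p * κ) by
    obtain ⟨v, κ, h1, h3⟩ := h
    by_contra z
    push Not at z
    have fv := lin v
    rw [z.1, z.2.1, z.2.2] at fv
    have g1 := hg v
    rw [h3, mul_pow, one_add_pow hπ, hg] at g1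
    have := (pi_mul (g v - g 0 - ((p - 1 : ℕ) : ZMod (p ^ 2)) * κ)).1 (by
      linear_combination -g1 + g 0 * (((p - 1 : ℕ) : ZMod (p ^ 2)) * κ) * hπ)
    rw [map_sub, map_sub, map_mul, map_natCast, Nat.cast_sub (by omega), ZMod.natCast_self] at this
    apply h1
    change rh p (g v) - rh p (g 0) = _ at fv
    push_cast at this
    linear_combination this - fv
  obtain ⟨h, hh⟩ := (two_unit' (p := p) (by omega)).exists_right_inv
  have dir : ∀ δ₂ δ₃ δ₄ δ₆ δ₈ : ZMod (p ^ 2), δ₆ = 2 * a₃ * δ₃ →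
      4 * δ₈ = δ₂ * (W 0).b₆ + (W 0).b₂ * δ₆ - 2 * (W 0).b₄ * δ₄ →
      ∃ v, (W v).b₄ = (W 0).b₄ + pp p * δ₄ ∧ (W v).b₆ = (W 0).b₆ + pp p * δ₆ ∧
        (W v).b₈ = (W 0).b₈ + pp p * δ₈ := fun δ₂ δ₃ δ₄ δ₆ δ₈ e6 e8 => by
    let v := (h ^ 2 * δ₂, δ₃, h * (δ₄ - a₁ * δ₃))
    have f2 : (W v).b₂ = (W 0).b₂ + pp p * δ₂ := by
      simp only [W, v, curve_b₂, Prod.fst_zero]
      linear_combination pp p * δ₂ * (2 * h + 1) * hh
    have f4 : (W v).b₄ = (W 0).b₄ + pp p * δ₄ := by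
      simp only [W, v, curve_b₄, Prod.fst_zero, Prod.snd_zero]
      linear_combination pp p * (δ₄ - a₁ * δ₃) * hh
    have f6 : (W v).b₆ = (W 0).b₆ + pp p * δ₆ := by
      simp only [W, v, curve_b₆, Prod.fst_zero, Prod.snd_zero, e6]
      linear_combination δ₃ ^ 2 * hπ
    refine ⟨v, f4, f6, ?_⟩
    have r1 := (W v).b_relation
    have r0 := (W 0).b_relation
    rw [f2, f4, f6] at r1
    linear_combination h ^ 2 * (r1 - r0 - pp p * e8 + (δ₂ * δ₆ - δ₄ ^ 2) * hπ) -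
      ((W v).b₈ - (W 0).b₈ - pp p * δ₈) * (2 * h + 1) * hh
  have hb6 : (W 0).b₆ = a₃ ^ 2 := by simp [W, curve_b₆, sq]
  by_cases hd : p ∣ N
  · have e := card_eq hp hΔ hd
    obtain ⟨v, f4, f6, f8⟩ := dir (32 * (W 0).b₄ - 2 * (W 0).b₂ ^ 2) (-(W 0).b₂ * a₃)
      (12 * (W 0).b₆ - 2 * (W 0).b₂ * (W 0).b₄) (-2 * (W 0).b₂ * (W 0).b₆)
      (2 * (W 0).b₄ * (W 0).b₆ - 4 * (W 0).b₂ * (W 0).b₈) (by rw [hb6]; ring)
      (by linear_combination (-4 * (W 0).b₂) * (W 0).b_relation)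
    choose α hα using fun n => (cg v n).1
    choose D hD using fun n => (cg v n).2
    have z : ∀ {x y i : ZMod (p ^ 2)}, x = y + pp p * i → x = y → rh p i = 0 := fun a b =>
      (pi_mul _).1 (by linear_combination b - a)
    obtain ⟨σ, s0, s1⟩ := anom (by omega) hΔ e hP cop0 (hc0 0 p) (α := fun n => rh p (α n))
      (Δ := fun n => rh p (D n)) (z (hα 0) ((hc v 0).a0.trans (hc 0 0).a0.symm))
      (z (hD 0) ((hc v 0).D0.trans (hc 0 0).D0.symm))
      (z (hα 1) ((hc v 0).a1.trans (hc 0 0).a1.symm))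
      (z (hD 1) ((hc v 0).D1.trans (hc 0 0).D1.symm)) fun j hj => by
        obtain ⟨e1, e2, e3⟩ := (hc v p).st j hj
        obtain ⟨g1, g2, g3⟩ := (hc 0 p).st j hj
        simp only [hα, hD, f4, f6, f8] at e1 e2 e3
        rw [← hW 0, map_b₂, map_b₄, map_b₆, map_b₈]
        clear hb6 f4 f6 f8 dir
        generalize (W 0).b₂ = b2, (W 0).b₄ = b4, (W 0).b₆ = b6, (W 0).b₈ = b8 at *
        have k4 : 12 * rh p b6 - 2 * rh p b2 * rh p b4 = rh p (12 * b6 - 2 * b2 * b4) := by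
          simp only [map_sub, map_mul, map_ofNat]
        have k6 : -2 * rh p b2 * rh p b6 = rh p (-2 * b2 * b6) := by
          simp only [map_neg, map_mul, map_ofNat]
        have k8 : 2 * rh p b4 * rh p b6 - 4 * rh p b2 * rh p b8 =
            rh p (2 * b4 * b6 - 4 * b2 * b8) := by simp only [map_sub, map_mul, map_ofNat]
        rw [k4, k6, k8]
        clear k4 k6 k8
        generalize 12 * b6 - 2 * b2 * b4 = c4, -2 * b2 * b6 = c6, 2 * b4 * b6 - 4 * b2 * b8 = c8,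
          A 0 j = a', E 0 j = d', A 0 (j + 1) = a, E 0 (j + 1) = d, A 0 (j + 2) = X,
          E 0 (j + 2) = Y, α j = α', D j = Δ', α (j + 1) = β, D (j + 1) = Δ, α (j + 2) = ξ,
          D (j + 2) = η at *
        refine ⟨sub_eq_zero.1 ?_, sub_eq_zero.1 ?_, sub_eq_zero.1 ?_⟩
        · have := (pi_mul (η * d' + Y * Δ' - 2 * a * β)).1 (by
            linear_combination e1 - g1 + (β ^ 2 - η * Δ') * hπ)
          simpa only [map_sub, map_add, map_mul, map_ofNat] using this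
        · have := (pi_mul (ξ * d' + X * Δ' + α' * Y + a' * η - (Δ * (b4 * a + b6 * d) +
            d * (c4 * a + b4 * β + c6 * d + b6 * Δ)))).1 (by
              linear_combination e2 - g2 + (Δ * (c4 * a + b4 * β + c6 * d + b6 * Δ) +
                (d + pp p * Δ) * (c4 * β + c6 * Δ) - ξ * Δ' - α' * η) * hπ)
          simpa only [map_sub, map_add, map_mul] using this
        · have := (pi_mul (ξ * a' + X * α' - -(Δ * (b6 * a + b8 * d) +
            d * (c6 * a + b6 * β + c8 * d + b8 * Δ)))).1 (by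
              linear_combination e3 - g3 - (Δ * (c6 * a + b6 * β + c8 * d + b8 * Δ) +
                (d + pp p * Δ) * (c6 * β + c8 * Δ) + ξ * α') * hπ)
          simpa only [map_sub, map_add, map_mul, map_neg] using this
    obtain ⟨τ, rfl⟩ := rh_surj σ
    refine ⟨v, τ ^ 2, by rw [map_pow]; exact pow_ne_zero _ s0, ?_⟩
    have := (pi_mul (α p - A 0 p * τ ^ 2)).2 (by rw [map_sub, map_mul, map_pow, s1, sub_self])
    rw [hN, e, hα]
    linear_combination this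
  · obtain ⟨v, f4, f6, f8⟩ := dir (2 * (W 0).b₂) (3 * a₃) (4 * (W 0).b₄) (6 * (W 0).b₆)
      (8 * (W 0).b₈) (by rw [hb6]; ring) (by linear_combination 8 * (W 0).b_relation)
    have c := (hc 0 N).scale (u := 1 + pp p * 1) (w := 1 - pp p) (by linear_combination -hπ)
    simp only [one_add_pow hπ] at c
    have c' := hc v N
    rw [f4, f6, f8] at c'
    have cv := cop v
    rw [f6, f8] at cv
    have := (c'.uniq cv (by convert c using 1 <;> push_cast <;> ring) N le_rfl).1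
    refine ⟨v, (2 * N ^ 2 : ℕ), ?_, by rw [this]; ring⟩
    rw [map_natCast]
    push_cast
    exact mul_ne_zero h2 (pow_ne_zero _ fun z => hd ((ZMod.natCast_eq_zero_iff _ _).1 z))

theorem link (hp : p ≠ 2) {a₁ a₂ a₃ a₄ : ℤ} {P} (h : Admissible (curve a₁ a₂ a₃ a₄) P) :
    Exceptional (curve a₁ a₂ a₃ a₄) P p ↔ Bad p a₁ a₂ a₃ a₄ := by
  obtain ⟨-, ⟨h0, rfl⟩, tor, ns⟩ := h
  have e1 : (curve (a₁ : ZMod (p ^ 2)) a₂ a₃ a₄) =
      (curve a₁ a₂ a₃ a₄).map (Int.castRingHom _) := by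
    simp only [curve_map, eq_intCast]
  have e2 : (curve (a₁ : ZMod (p ^ 2)) a₂ a₃ a₄).map (rh p) =
      (curve a₁ a₂ a₃ a₄).map (Int.castRingHom _) := by
    simp only [curve_map, map_intCast, eq_intCast]
  have cop : IsCoprime (curve a₁ a₂ a₃ a₄).b₆ (curve a₁ a₂ a₃ a₄).b₈ := by
    refine cop_b rfl (Int.isCoprime_iff_gcd_eq_one.2 ?_)
    by_contra g
    obtain ⟨l, hl, d⟩ := Nat.exists_prime_and_dvd g
    have := (nonsingular_zero.1 (ns l hl)).2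
    have d3 := (ZMod.intCast_zmod_eq_zero_iff_dvd _ l).2
      ((Int.natCast_dvd_natCast.2 d).trans (Int.gcd_dvd_left _ _))
    have d4 := (ZMod.intCast_zmod_eq_zero_iff_dvd _ l).2
      ((Int.natCast_dvd_natCast.2 d).trans (Int.gcd_dvd_right _ _))
    rcases this with z | z
    · exact z d3
    · exact z d4
  unfold Exceptional Bad
  rw [e2, e1]
  generalize curve a₁ a₂ a₃ a₄ = W at *
  obtain ⟨A, E, hc⟩ := Ch.ex W.b₄ cop
  have : Finite (W.map (Int.castRingHom (ZMod p))).toAffine.Point := (card_le (two_ne hp)).1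
  have pos : 0 < Nat.card (W.map (Int.castRingHom (ZMod p))).toAffine.Point := Nat.card_pos
  generalize Nat.card (W.map (Int.castRingHom (ZMod p))).toAffine.Point = N at *
  have cq := (hc N).map (Int.castRingHom ℚ)
  rw [← map_b₄, ← map_b₆, ← map_b₈] at cq
  have r := cq.rep two_ne_zero (P := .some 0 0 h0) ⟨0, h0, rfl, rfl⟩
    (by rw [map_b₆, map_b₈]; exact cop.map _) N le_rfl
  obtain ⟨z, -⟩ | ⟨hE, x, s, ⟨y, hy, q, -⟩, ex⟩ := r
  · exact absurd (isOfFinAddOrder_iff_nsmul_eq_zero.2 ⟨N, pos, z⟩) tor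
  simp only [eq_intCast] at hE ex
  have ev : Even (p - 1) := (Fact.out : p.Prime).even_sub_one hp
  have nu : x.num ^ (p - 1) = A N ^ (p - 1) := by
    have c := Int.isCoprime_iff_gcd_eq_one.1 ((hc N).cop cop N le_rfl)
    have hx : x = (A N : ℚ) / (E N : ℤ) := eq_div_of_mul_eq hE ex
    rcases lt_or_gt_of_ne (show E N ≠ 0 by exact_mod_cast hE) with l | l
    · have : x = ((-A N : ℤ) : ℚ) / (-E N : ℤ) := by rw [hx]; push_cast; rw [neg_div_neg_eq]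
      rw [this, Rat.num_div_eq_of_coprime (by omega) (by rw [Int.natAbs_neg, Int.natAbs_neg]; exact c),
        ev.neg_pow]
    · rw [hx, Rat.num_div_eq_of_coprime l c]
  have cz := (hc N).map (Int.castRingHom (ZMod (p ^ 2)))
  have fin : A N ^ (p - 1) ≡ 1 [ZMOD (p : ℤ) ^ 2] ↔ ((A N : ℤ) : ZMod (p ^ 2)) ^ (p - 1) = 1 := by
    rw [← Nat.cast_pow, ← ZMod.intCast_eq_intCast_iff]
    push_cast
    rfl
  rw [map_Δ, map_b₄, map_b₆, map_b₈, eq_intCast, Ne, ZMod.intCast_zmod_eq_zero_iff_dvd]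
  constructor
  · rintro ⟨-, d, x', y', h', q', m⟩
    obtain ⟨rfl, -⟩ := Point.some.inj (q.symm.trans q')
    exact ⟨d, _, _, cz, fin.1 (nu ▸ m)⟩
  · rintro ⟨d, A', E', c, m⟩
    refine ⟨Fact.out, d, x, y, hy, q, nu ▸ fin.2 ?_⟩
    rw [← m, ← (cz.uniq (cop.map _) c N le_rfl).1]
    rfl

end Pool.Agent.MP_c74c64_nt.H6
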